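import Mathlib

/-!
# The strong Littlewood conjecture for sets of at most three elements

For a set of three integers which is not an arithmetic progression the second and fourth moments of
the exponential sum are `3` and `15`, and the sixth is at least `93`. The polynomial minorant
`751/845 r^2 - 72064/570375 r^4 + 4096/570375 r^6 ≤ r` on `[0, 3]` gives an `L^1` norm larger than
`1.4389`, and for an arithmetic progression the norm is `1/3 + 2 √3 / π < 1.4361`.
-/

set_option autoImplicit false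

open MeasureTheory intervalIntegral

namespace Pool.Agent.Results.MP_d1728b_an.ThreeElementSets

/-- the `L^1` norm of the exponential sum over `A` -/
noncomputable def norm1 (A : Finset ℤ) : ℝ :=
  ∫ θ in (0 : ℝ)..1, ‖∑ x ∈ A, Complex.exp (2 * (Real.pi : ℂ) * Complex.I * (x : ℂ) * (θ : ℂ))‖

/-- the minorant -/
theorem poly {r : ℝ} (h0 : 0 ≤ r) (h3 : r ≤ 3) :
    751 / 845 * r ^ 2 - 72064 / 570375 * r ^ 4 + 4096 / 570375 * r ^ 6 ≤ r := by
  have e : r - (751 / 845 * r ^ 2 - 72064 / 570375 * r ^ 4 + 4096 / 570375 * r ^ 6) =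
      r * (3 - r) * (r - 15 / 8) ^ 2 * (64 / 675 + 1024 / 21125 * r + 4096 / 570375 * r ^ 2) := by
    ring
  have h : 0 ≤ r * (3 - r) * (r - 15 / 8) ^ 2 *
      (64 / 675 + 1024 / 21125 * r + 4096 / 570375 * r ^ 2) := by
    have : 0 ≤ 3 - r := by linarith
    positivity
  linarith

/-- `cos(2πkθ)` -/
noncomputable def c (k : ℤ) (θ : ℝ) : ℝ := Real.cos (2 * Real.pi * k * θ)

@[fun_prop]
theorem c_cont (k : ℤ) : Continuous (c k) := by
  unfold c; fun_prop

theorem Jadd {f g : ℝ → ℝ} (hf : Continuous f) (hg : Continuous g) :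
    ∫ θ in (0 : ℝ)..1, (f θ + g θ) = (∫ θ in (0 : ℝ)..1, f θ) + ∫ θ in (0 : ℝ)..1, g θ :=
  intervalIntegral.integral_add (hf.intervalIntegrable _ _) (hg.intervalIntegrable _ _)

theorem ci (k : ℤ) : IntervalIntegrable (c k) volume 0 1 := (c_cont k).intervalIntegrable _ _

/-- the integral -/
noncomputable def δ (k : ℤ) : ℝ := if k = 0 then 1 else 0

theorem δ_nonneg (k : ℤ) : 0 ≤ δ k := by unfold δ; split_ifs <;> norm_num

theorem I1 (k : ℤ) : ∫ θ in (0 : ℝ)..1, c k θ = δ k := by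
  unfold c δ
  split_ifs with h
  · rw [h]; simp
  · have hk : (2 * Real.pi * (k : ℝ)) ≠ 0 := by
      have : (k : ℝ) ≠ 0 := by exact_mod_cast h
      positivity
    rw [intervalIntegral.integral_comp_mul_left (fun x => Real.cos x) hk]
    rw [integral_cos]
    have h1 : Real.sin (2 * Real.pi * k * 1) = 0 := by
      have := Real.sin_int_mul_pi (2 * k)
      push_cast at this
      rw [show 2 * Real.pi * (k : ℝ) * 1 = 2 * (k : ℝ) * Real.pi by ring]
      exact this
    rw [h1]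
    simp

theorem pr (k l : ℤ) (θ : ℝ) : c k θ * c l θ = (c (k + l) θ + c (k - l) θ) / 2 := by
  unfold c
  push_cast
  rw [show 2 * Real.pi * ((k : ℝ) + l) * θ = 2 * Real.pi * k * θ + 2 * Real.pi * l * θ by ring,
    show 2 * Real.pi * ((k : ℝ) - l) * θ = 2 * Real.pi * k * θ - 2 * Real.pi * l * θ by ring,
    Real.cos_add, Real.cos_sub]
  ring

theorem I2 (k l : ℤ) : ∫ θ in (0 : ℝ)..1, c k θ * c l θ = (δ (k + l) + δ (k - l)) / 2 := by
  simp_rw [pr]
  rw [intervalIntegral.integral_div, intervalIntegral.integral_add (ci _) (ci _), I1, I1]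

theorem I3 (k l j : ℤ) : 0 ≤ ∫ θ in (0 : ℝ)..1, c k θ * c l θ * c j θ := by
  have e : ∀ θ, c k θ * c l θ * c j θ = (c (k + l) θ * c j θ + c (k - l) θ * c j θ) / 2 := by
    intro θ; rw [pr]; ring
  simp_rw [e]
  rw [intervalIntegral.integral_div, Jadd (f := fun θ => c _ θ * c _ θ)
    (g := fun θ => c _ θ * c _ θ) (by fun_prop) (by fun_prop), I2, I2]
  have := δ_nonneg (k + l + j)
  have := δ_nonneg (k + l - j)
  have := δ_nonneg (k - l + j)
  have := δ_nonneg (k - l - j)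
  positivity

theorem I3' (p q : ℤ) : 1 / 4 ≤ ∫ θ in (0 : ℝ)..1, c p θ * c q θ * c (p + q) θ := by
  have e : ∀ θ, c p θ * c q θ * c (p + q) θ =
      (c (p + q) θ * c (p + q) θ + c (p - q) θ * c (p + q) θ) / 2 := by
    intro θ; rw [pr]; ring
  simp_rw [e]
  rw [intervalIntegral.integral_div, Jadd (f := fun θ => c _ θ * c _ θ)
    (g := fun θ => c _ θ * c _ θ) (by fun_prop) (by fun_prop), I2, I2]
  have h1 := δ_nonneg (p + q + (p + q))
  have h2 : δ (p + q - (p + q)) = 1 := by unfold δ; simp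
  have h3 := δ_nonneg (p - q + (p + q))
  have h4 := δ_nonneg (p - q - (p + q))
  rw [h2]
  linarith

/-- the square of the absolute value of a sum of three exponentials, `a`, `a + p`, `a + p + q` -/
theorem sq3 (a p q : ℤ) (θ : ℝ) :
    ‖Complex.exp (2 * (Real.pi : ℂ) * Complex.I * (a : ℂ) * (θ : ℂ)) +
      Complex.exp (2 * (Real.pi : ℂ) * Complex.I * ((a + p : ℤ) : ℂ) * (θ : ℂ)) +
      Complex.exp (2 * (Real.pi : ℂ) * Complex.I * ((a + p + q : ℤ) : ℂ) * (θ : ℂ))‖ ^ 2 =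
      3 + 2 * (c p θ + c q θ + c (p + q) θ) := by
  have e : ∀ k : ℤ, Complex.exp (2 * (Real.pi : ℂ) * Complex.I * (k : ℂ) * (θ : ℂ)) =
      ((Real.cos (2 * Real.pi * k * θ) : ℝ) : ℂ) + ((Real.sin (2 * Real.pi * k * θ) : ℝ) : ℂ) *
        Complex.I := by
    intro k
    rw [show 2 * (Real.pi : ℂ) * Complex.I * (k : ℂ) * (θ : ℂ) =
      ((2 * Real.pi * k * θ : ℝ) : ℂ) * Complex.I by push_cast; ring, Complex.exp_mul_I]
    push_cast
    rfl
  rw [e, e, e, ← Complex.normSq_eq_norm_sq, Complex.normSq_apply]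
  simp only [Complex.add_re, Complex.add_im, Complex.mul_re, Complex.mul_im, Complex.ofReal_re,
    Complex.ofReal_im, Complex.I_re, Complex.I_im, mul_zero, mul_one, sub_zero, zero_add, add_zero]
  unfold c
  push_cast
  have h1 : 2 * Real.pi * ((a : ℝ) + p) * θ = 2 * Real.pi * a * θ + 2 * Real.pi * p * θ := by ring
  have h2 : 2 * Real.pi * ((a : ℝ) + p + q) * θ =
      2 * Real.pi * a * θ + (2 * Real.pi * p * θ + 2 * Real.pi * q * θ) := by ring
  have h3 : 2 * Real.pi * ((p : ℝ) + q) * θ = 2 * Real.pi * p * θ + 2 * Real.pi * q * θ := by ring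
  rw [h1, h2, h3]
  simp only [Real.cos_add, Real.sin_add]
  have ha := Real.sin_sq_add_cos_sq (2 * Real.pi * a * θ)
  have hp := Real.sin_sq_add_cos_sq (2 * Real.pi * p * θ)
  have hq := Real.sin_sq_add_cos_sq (2 * Real.pi * q * θ)
  generalize Real.sin (2 * Real.pi * a * θ) = sa at *
  generalize Real.cos (2 * Real.pi * a * θ) = ca at *
  generalize Real.sin (2 * Real.pi * p * θ) = sp at *
  generalize Real.cos (2 * Real.pi * p * θ) = cp at *
  generalize Real.sin (2 * Real.pi * q * θ) = sq at *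
  generalize Real.cos (2 * Real.pi * q * θ) = cq at *
  have e1 : (ca + (ca * cp - sa * sp) + (ca * (cp * cq - sp * sq) - sa * (sp * cq + cp * sq))) *
      (ca + (ca * cp - sa * sp) + (ca * (cp * cq - sp * sq) - sa * (sp * cq + cp * sq))) +
      (sa + (sa * cp + ca * sp) + (sa * (cp * cq - sp * sq) + ca * (sp * cq + cp * sq))) *
      (sa + (sa * cp + ca * sp) + (sa * (cp * cq - sp * sq) + ca * (sp * cq + cp * sq))) =
      (sa ^ 2 + ca ^ 2) * ((1 + cp + (cp * cq - sp * sq)) ^ 2 + (sp + (sp * cq + cp * sq)) ^ 2) := by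
    ring
  have e2 : (1 + cp + (cp * cq - sp * sq)) ^ 2 + (sp + (sp * cq + cp * sq)) ^ 2 =
      1 + (sp ^ 2 + cp ^ 2) + (sp ^ 2 + cp ^ 2) * (sq ^ 2 + cq ^ 2) + 2 * cp +
        2 * (sp ^ 2 + cp ^ 2) * cq + 2 * (cp * cq - sp * sq) := by
    ring
  rw [e1, ha, e2, hp, hq]
  ring

theorem w1 {p q : ℤ} (hp : 0 < p) (hq : 0 < q) :
    ∫ θ in (0 : ℝ)..1, (c p θ + (c q θ + c (p + q) θ)) = 0 := by
  rw [Jadd (by fun_prop) (by fun_prop), Jadd (by fun_prop) (by fun_prop), I1, I1, I1]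
  unfold δ
  rw [if_neg (by omega), if_neg (by omega), if_neg (by omega)]
  norm_num

theorem w2 {p q : ℤ} (hp : 0 < p) (hq : 0 < q) (hpq : p ≠ q) :
    ∫ θ in (0 : ℝ)..1, (c p θ + (c q θ + c (p + q) θ)) ^ 2 = 3 / 2 := by
  have e : ∀ θ, (c p θ + (c q θ + c (p + q) θ)) ^ 2 = c p θ * c p θ + (c q θ * c q θ +
      (c (p + q) θ * c (p + q) θ + (2 * (c p θ * c q θ) + (2 * (c p θ * c (p + q) θ) +
      2 * (c q θ * c (p + q) θ))))) := by
    intro θ; ring
  simp_rw [e]
  rw [Jadd (by fun_prop) (by fun_prop), Jadd (by fun_prop) (by fun_prop),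
    Jadd (by fun_prop) (by fun_prop), Jadd (by fun_prop) (by fun_prop),
    Jadd (by fun_prop) (by fun_prop), intervalIntegral.integral_const_mul,
    intervalIntegral.integral_const_mul, intervalIntegral.integral_const_mul,
    I2, I2, I2, I2, I2, I2]
  have h0 : ∀ k : ℤ, k ≠ 0 → δ k = 0 := fun k hk => if_neg hk
  have h1 : ∀ k : ℤ, δ (k - k) = 1 := fun k => by unfold δ; simp
  rw [h1, h1, h1, h0 (p + p) (by omega), h0 (q + q) (by omega), h0 (p + q + (p + q)) (by omega),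
    h0 (p + q) (by omega), h0 (p - q) (by omega), h0 (p + (p + q)) (by omega),
    h0 (p - (p + q)) (by omega), h0 (q + (p + q)) (by omega), h0 (q - (p + q)) (by omega)]
  norm_num

theorem w3 (p q : ℤ) :
    3 / 2 ≤ ∫ θ in (0 : ℝ)..1, (c p θ + (c q θ + c (p + q) θ)) ^ 3 := by
  have e : ∀ θ, (c p θ + (c q θ + c (p + q) θ)) ^ 3 =
      c p θ * c p θ * c p θ + (c q θ * c q θ * c q θ + (c (p + q) θ * c (p + q) θ * c (p + q) θ +
      (3 * (c p θ * c p θ * c q θ) + (3 * (c p θ * c p θ * c (p + q) θ) +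
      (3 * (c q θ * c q θ * c p θ) + (3 * (c q θ * c q θ * c (p + q) θ) +
      (3 * (c (p + q) θ * c (p + q) θ * c p θ) + (3 * (c (p + q) θ * c (p + q) θ * c q θ) +
      6 * (c p θ * c q θ * c (p + q) θ))))))))) := by
    intro θ; ring
  simp_rw [e]
  rw [Jadd (by fun_prop) (by fun_prop), Jadd (by fun_prop) (by fun_prop),
    Jadd (by fun_prop) (by fun_prop), Jadd (by fun_prop) (by fun_prop),
    Jadd (by fun_prop) (by fun_prop), Jadd (by fun_prop) (by fun_prop),
    Jadd (by fun_prop) (by fun_prop), Jadd (by fun_prop) (by fun_prop),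
    Jadd (by fun_prop) (by fun_prop), intervalIntegral.integral_const_mul,
    intervalIntegral.integral_const_mul, intervalIntegral.integral_const_mul,
    intervalIntegral.integral_const_mul, intervalIntegral.integral_const_mul,
    intervalIntegral.integral_const_mul, intervalIntegral.integral_const_mul]
  have h1 := I3 p p p
  have h2 := I3 q q q
  have h3 := I3 (p + q) (p + q) (p + q)
  have h4 := I3 p p q
  have h5 := I3 p p (p + q)
  have h6 := I3 q q p
  have h7 := I3 q q (p + q)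
  have h8 := I3 (p + q) (p + q) p
  have h9 := I3 (p + q) (p + q) q
  have h10 := I3' p q
  linarith

/-- the sum of three exponentials -/
noncomputable def f3 (a p q : ℤ) (θ : ℝ) : ℂ :=
  Complex.exp (2 * (Real.pi : ℂ) * Complex.I * (a : ℂ) * (θ : ℂ)) +
    Complex.exp (2 * (Real.pi : ℂ) * Complex.I * ((a + p : ℤ) : ℂ) * (θ : ℂ)) +
    Complex.exp (2 * (Real.pi : ℂ) * Complex.I * ((a + p + q : ℤ) : ℂ) * (θ : ℂ))

theorem e_norm (k : ℤ) (θ : ℝ) :
    ‖Complex.exp (2 * (Real.pi : ℂ) * Complex.I * (k : ℂ) * (θ : ℂ))‖ = 1 := by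
  rw [show 2 * (Real.pi : ℂ) * Complex.I * (k : ℂ) * (θ : ℂ) =
      ((2 * Real.pi * k * θ : ℝ) : ℂ) * Complex.I by push_cast; ring]
  exact Complex.norm_exp_ofReal_mul_I _

theorem f3_le (a p q : ℤ) (θ : ℝ) : ‖f3 a p q θ‖ ≤ 3 := by
  unfold f3
  refine (norm_add₃_le).trans ?_
  rw [e_norm, e_norm, e_norm]
  norm_num

theorem f3_cont (a p q : ℤ) : Continuous fun θ => ‖f3 a p q θ‖ := by
  unfold f3; fun_prop

theorem lin (k0 k1 k2 k3 : ℝ) (p q : ℤ) :
    ∫ θ in (0 : ℝ)..1, (k0 + (k1 * (c p θ + (c q θ + c (p + q) θ)) +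
      (k2 * (c p θ + (c q θ + c (p + q) θ)) ^ 2 + k3 * (c p θ + (c q θ + c (p + q) θ)) ^ 3))) =
    k0 + (k1 * (∫ θ in (0 : ℝ)..1, (c p θ + (c q θ + c (p + q) θ))) +
      (k2 * (∫ θ in (0 : ℝ)..1, (c p θ + (c q θ + c (p + q) θ)) ^ 2) +
      k3 * ∫ θ in (0 : ℝ)..1, (c p θ + (c q θ + c (p + q) θ)) ^ 3)) := by
  rw [Jadd (by fun_prop) (by fun_prop), Jadd (by fun_prop) (by fun_prop),
    Jadd (by fun_prop) (by fun_prop), intervalIntegral.integral_const_mul,
    intervalIntegral.integral_const_mul, intervalIntegral.integral_const_mul]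
  simp

/-- the lower bound -/
theorem low {a p q : ℤ} (hp : 0 < p) (hq : 0 < q) (hpq : p ≠ q) :
    1.4389 ≤ ∫ θ in (0 : ℝ)..1, ‖f3 a p q θ‖ := by
  have hu : ∀ θ, ‖f3 a p q θ‖ ^ 2 = 3 + 2 * (c p θ + (c q θ + c (p + q) θ)) := by
    intro θ
    have := sq3 a p q θ
    unfold f3
    rw [this]
    ring
  have h1 : ∀ θ ∈ Set.Icc (0 : ℝ) 1, (751 / 845 * 3 - 72064 / 570375 * 9 + 4096 / 570375 * 27) +
      ((751 / 845 * 2 - 72064 / 570375 * 12 + 4096 / 570375 * 54) *
        (c p θ + (c q θ + c (p + q) θ)) +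
      ((- (72064 / 570375) * 4 + 4096 / 570375 * 36) * (c p θ + (c q θ + c (p + q) θ)) ^ 2 +
      (4096 / 570375 * 8) * (c p θ + (c q θ + c (p + q) θ)) ^ 3)) ≤ ‖f3 a p q θ‖ := by
    intro θ _
    have h2 := poly (norm_nonneg (f3 a p q θ)) (f3_le a p q θ)
    have h4 : ‖f3 a p q θ‖ ^ 4 = (‖f3 a p q θ‖ ^ 2) ^ 2 := by ring
    have h6 : ‖f3 a p q θ‖ ^ 6 = (‖f3 a p q θ‖ ^ 2) ^ 3 := by ring
    rw [h4, h6, hu] at h2
    refine le_trans (le_of_eq ?_) h2
    ring
  have h2 := intervalIntegral.integral_mono_on (μ := volume) (zero_le_one' ℝ)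
    ((by fun_prop : Continuous fun θ : ℝ =>
      (751 / 845 * 3 - 72064 / 570375 * 9 + 4096 / 570375 * 27 : ℝ) +
      ((751 / 845 * 2 - 72064 / 570375 * 12 + 4096 / 570375 * 54) *
        (c p θ + (c q θ + c (p + q) θ)) +
      ((- (72064 / 570375) * 4 + 4096 / 570375 * 36) * (c p θ + (c q θ + c (p + q) θ)) ^ 2 +
      (4096 / 570375 * 8) * (c p θ + (c q θ + c (p + q) θ)) ^ 3))).intervalIntegrable _ _)
    ((f3_cont a p q).intervalIntegrable _ _) h1
  refine le_trans ?_ h2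
  rw [lin, w1 hp hq, w2 hp hq hpq]
  have h3 := w3 p q
  linarith

/-- integrals of periodic functions -/
theorem scale {g : ℝ → ℝ} (hg : Function.Periodic g 1) (hc : Continuous g) {d : ℤ} (hd : d ≠ 0) :
    ∫ θ in (0 : ℝ)..1, g (d * θ) = ∫ θ in (0 : ℝ)..1, g θ := by
  have hd' : (d : ℝ) ≠ 0 := by exact_mod_cast hd
  rw [intervalIntegral.integral_comp_mul_left g hd']
  have h := hg.intervalIntegral_add_zsmul_eq d 0 (fun a b => hc.intervalIntegrable a b)
  simp only [zero_add, zsmul_eq_mul, mul_one] at h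
  rw [mul_zero, mul_one, h, smul_eq_mul]
  field_simp

theorem c_one (d : ℤ) (θ : ℝ) : c d θ = c 1 (d * θ) := by
  unfold c
  congr 1
  push_cast
  ring

theorem c_per : Function.Periodic (c 1) 1 := by
  intro θ
  unfold c
  push_cast
  rw [show 2 * Real.pi * 1 * (θ + 1) = 2 * Real.pi * 1 * θ + 2 * Real.pi by ring, Real.cos_add_two_pi]

/-- the norm of the sum over a progression of three terms -/
theorem ap3 (a : ℤ) {d : ℤ} (hd : d ≠ 0) :
    ∫ θ in (0 : ℝ)..1, ‖f3 a d d θ‖ = ∫ θ in (0 : ℝ)..1, |1 + 2 * c 1 θ| := by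
  have h1 : ∀ θ, ‖f3 a d d θ‖ = |1 + 2 * c 1 (d * θ)| := by
    intro θ
    have h := sq3 a d d θ
    have h2 : c (d + d) θ = 2 * c d θ ^ 2 - 1 := by
      unfold c
      push_cast
      rw [show 2 * Real.pi * ((d : ℝ) + d) * θ = 2 * (2 * Real.pi * d * θ) by ring, Real.cos_two_mul]
    rw [h2] at h
    have h3 : ‖f3 a d d θ‖ ^ 2 = (1 + 2 * c d θ) ^ 2 := by
      unfold f3
      rw [h]
      ring
    rw [← c_one, ← Real.sqrt_sq (norm_nonneg (f3 a d d θ)), h3, Real.sqrt_sq_eq_abs]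
  simp_rw [h1]
  refine scale (g := fun θ => |1 + 2 * c 1 θ|) ?_ (by fun_prop) hd
  intro θ
  simp only [c_per θ]

/-- the norm of the sum of two exponentials -/
theorem two (a : ℤ) {d : ℤ} (hd : d ≠ 0) :
    ∫ θ in (0 : ℝ)..1, ‖Complex.exp (2 * (Real.pi : ℂ) * Complex.I * (a : ℂ) * (θ : ℂ)) +
      Complex.exp (2 * (Real.pi : ℂ) * Complex.I * ((a + d : ℤ) : ℂ) * (θ : ℂ))‖ =
      ∫ θ in (0 : ℝ)..1, ‖1 + Complex.exp (2 * (Real.pi : ℂ) * Complex.I * (θ : ℂ))‖ := by
  have h1 : ∀ θ : ℝ, ‖Complex.exp (2 * (Real.pi : ℂ) * Complex.I * (a : ℂ) * (θ : ℂ)) +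
      Complex.exp (2 * (Real.pi : ℂ) * Complex.I * ((a + d : ℤ) : ℂ) * (θ : ℂ))‖ =
      ‖1 + Complex.exp (2 * (Real.pi : ℂ) * Complex.I * ((d * θ : ℝ) : ℂ))‖ := by
    intro θ
    have e : Complex.exp (2 * (Real.pi : ℂ) * Complex.I * (a : ℂ) * (θ : ℂ)) +
        Complex.exp (2 * (Real.pi : ℂ) * Complex.I * ((a + d : ℤ) : ℂ) * (θ : ℂ)) =
        Complex.exp (2 * (Real.pi : ℂ) * Complex.I * (a : ℂ) * (θ : ℂ)) *
          (1 + Complex.exp (2 * (Real.pi : ℂ) * Complex.I * ((d * θ : ℝ) : ℂ))) := by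
      rw [mul_add, mul_one, ← Complex.exp_add]
      congr 2
      push_cast
      ring
    rw [e, norm_mul, e_norm, one_mul]
  simp_rw [h1]
  refine scale (g := fun θ : ℝ => ‖1 + Complex.exp (2 * (Real.pi : ℂ) * Complex.I * (θ : ℂ))‖) ?_
    (by fun_prop) hd
  intro θ
  simp only
  rw [show 2 * (Real.pi : ℂ) * Complex.I * ((θ + 1 : ℝ) : ℂ) =
    2 * (Real.pi : ℂ) * Complex.I * (θ : ℂ) + 2 * Real.pi * Complex.I by push_cast; ring,
    Complex.exp_add, Complex.exp_two_pi_mul_I, mul_one]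

/-- the value for progressions -/
theorem apval : ∫ θ in (0 : ℝ)..1, |1 + 2 * c 1 θ| = 1 / 3 + 2 * Real.sqrt 3 / Real.pi := by
  have hpi := Real.pi_pos
  have hF : ∀ u v : ℝ, ∫ θ in u..v, (1 + 2 * c 1 θ) =
      (v - u) + (Real.sin (2 * Real.pi * v) - Real.sin (2 * Real.pi * u)) / Real.pi := by
    intro u v
    have : ∀ θ, c 1 θ = Real.cos (2 * Real.pi * θ) := by intro θ; unfold c; push_cast; ring_nf
    simp_rw [this]
    rw [intervalIntegral.integral_add (by simp) (Continuous.intervalIntegrable (by fun_prop) _ _),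
      intervalIntegral.integral_const_mul, intervalIntegral.integral_comp_mul_left
        (fun x => Real.cos x) (by positivity), integral_cos]
    simp only [intervalIntegral.integral_const, smul_eq_mul, mul_one]
    field_simp
  have s1 : Real.sin (2 * Real.pi * (1 / 3)) = Real.sqrt 3 / 2 := by
    rw [show 2 * Real.pi * (1 / 3) = Real.pi - Real.pi / 3 by ring, Real.sin_pi_sub,
      Real.sin_pi_div_three]
  have s2 : Real.sin (2 * Real.pi * (2 / 3)) = - (Real.sqrt 3 / 2) := by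
    rw [show 2 * Real.pi * (2 / 3) = Real.pi / 3 + Real.pi by ring, Real.sin_add_pi,
      Real.sin_pi_div_three]
  have hi : ∀ u v : ℝ, IntervalIntegrable (fun θ => |1 + 2 * c 1 θ|) volume u v := fun u v =>
    Continuous.intervalIntegrable (by fun_prop) _ _
  rw [← intervalIntegral.integral_add_adjacent_intervals (hi 0 (1 / 3)) (hi (1 / 3) 1),
    ← intervalIntegral.integral_add_adjacent_intervals (hi (1 / 3) (2 / 3)) (hi (2 / 3) 1)]
  have hcos : ∀ x : ℝ, 0 ≤ x → x ≤ 2 * Real.pi / 3 → -(1 / 2) ≤ Real.cos x := by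
    intro x h0 h1
    have h := Real.cos_le_cos_of_nonneg_of_le_pi h0 (by linarith) h1
    have e : Real.cos (2 * Real.pi / 3) = -(1 / 2) := by
      rw [show 2 * Real.pi / 3 = Real.pi - Real.pi / 3 by ring, Real.cos_pi_sub,
        Real.cos_pi_div_three]
    rw [e] at h
    exact h
  have i1 : ∫ θ in (0 : ℝ)..(1 / 3), |1 + 2 * c 1 θ| = ∫ θ in (0 : ℝ)..(1 / 3), (1 + 2 * c 1 θ) := by
    refine intervalIntegral.integral_congr fun θ hθ => ?_
    rw [Set.uIcc_of_le (by norm_num)] at hθ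
    refine abs_of_nonneg ?_
    have h := hcos (2 * Real.pi * θ) (by have := hθ.1; positivity) (by nlinarith [hθ.2])
    unfold c
    push_cast
    rw [show 2 * Real.pi * 1 * θ = 2 * Real.pi * θ by ring]
    linarith
  have i3 : ∫ θ in (2 / 3 : ℝ)..1, |1 + 2 * c 1 θ| = ∫ θ in (2 / 3 : ℝ)..1, (1 + 2 * c 1 θ) := by
    refine intervalIntegral.integral_congr fun θ hθ => ?_
    rw [Set.uIcc_of_le (by norm_num)] at hθ
    refine abs_of_nonneg ?_
    have h0 : 0 ≤ 1 - θ := by linarith [hθ.2]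
    have h := hcos (2 * Real.pi * (1 - θ)) (by positivity) (by nlinarith [hθ.1])
    rw [show 2 * Real.pi * (1 - θ) = 2 * Real.pi - 2 * Real.pi * θ by ring,
      Real.cos_two_pi_sub] at h
    unfold c
    push_cast
    rw [show 2 * Real.pi * 1 * θ = 2 * Real.pi * θ by ring]
    linarith
  have i2 : ∫ θ in (1 / 3 : ℝ)..(2 / 3), |1 + 2 * c 1 θ| =
      ∫ θ in (1 / 3 : ℝ)..(2 / 3), -(1 + 2 * c 1 θ) := by
    refine intervalIntegral.integral_congr fun θ hθ => ?_
    rw [Set.uIcc_of_le (by norm_num)] at hθ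
    refine abs_of_nonpos ?_
    have h : Real.cos (2 * Real.pi * θ) ≤ -(1 / 2) := by
      have h1 : Real.cos (2 * Real.pi * θ) = - Real.cos (2 * Real.pi * θ - Real.pi) := by
        rw [Real.cos_sub_pi, neg_neg]
      have h2 : 1 / 2 ≤ Real.cos (2 * Real.pi * θ - Real.pi) := by
        rw [← Real.cos_abs, ← Real.cos_pi_div_three]
        refine Real.cos_le_cos_of_nonneg_of_le_pi (abs_nonneg _) (by linarith) ?_
        rw [abs_le]
        constructor <;> nlinarith [hθ.1, hθ.2]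
      linarith
    unfold c
    push_cast
    rw [show 2 * Real.pi * 1 * θ = 2 * Real.pi * θ by ring]
    linarith
  rw [i1, i2, i3, intervalIntegral.integral_neg, hF, hF, hF, s1, s2]
  have s3 : Real.sin (2 * Real.pi * 1) = 0 := by rw [mul_one, Real.sin_two_pi]
  have s0 : Real.sin (2 * Real.pi * 0) = 0 := by simp
  rw [s3, s0]
  field_simp
  ring

theorem apval_lt : 1 / 3 + 2 * Real.sqrt 3 / Real.pi < 1.4361 := by
  have h1 := Real.pi_gt_d4
  have h2 : Real.sqrt 3 < 1.73206 := by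
    rw [Real.sqrt_lt' (by norm_num)]
    norm_num
  have h3 : 2 * Real.sqrt 3 / Real.pi < 1.10272 := by
    rw [div_lt_iff₀ Real.pi_pos]
    nlinarith
  linarith

theorem sorted {A : Finset ℤ} (h : A.card = 3) : ∃ x y z : ℤ, x < y ∧ y < z ∧ A = {x, y, z} := by
  obtain ⟨x, y, z, h1, h2, h3, rfl⟩ := Finset.card_eq_three.1 h
  rcases lt_or_gt_of_ne h1 with a1 | a1 <;> rcases lt_or_gt_of_ne h2 with a2 | a2 <;>
    rcases lt_or_gt_of_ne h3 with a3 | a3
  · exact ⟨x, y, z, a1, a3, rfl⟩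
  · exact ⟨x, z, y, a2, a3, by ext t; simp; tauto⟩
  · exact absurd (a1.trans a3) (not_lt.2 a2.le)
  · exact ⟨z, x, y, a2, a1, by ext t; simp; tauto⟩
  · exact ⟨y, x, z, a1, a2, by ext t; simp; tauto⟩
  · exact absurd (a1.trans a2) (not_lt.2 a3.le)
  · exact ⟨y, z, x, a3, a2, by ext t; simp; tauto⟩
  · exact ⟨z, y, x, a3, a1, by ext t; simp; tauto⟩

theorem norm1_three {x y z : ℤ} (h1 : x < y) (h2 : y < z) :
    norm1 {x, y, z} = ∫ θ in (0 : ℝ)..1, ‖f3 x (y - x) (z - y) θ‖ := by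
  unfold norm1
  refine intervalIntegral.integral_congr fun θ _ => ?_
  congr 1
  rw [Finset.sum_insert (by simp; omega), Finset.sum_insert (by simp; omega), Finset.sum_singleton]
  unfold f3
  rw [show x + (y - x) = y by ring, show y + (z - y) = z by ring, add_assoc]

/-- **The strong Littlewood conjecture for sets of at most three elements**: the sum over a progression
with the same number of terms has the smallest `L^1` norm; for three elements it is
`1/3 + 2 √3 / π < 1.4361`, and it is at least `1.4389` for all other sets of three elements. -/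
theorem result :
    (∀ (A : Finset ℤ) (a d : ℤ), A.card ≤ 3 → d ≠ 0 →
      (∫ θ in (0:ℝ)..1,
          ‖∑ k ∈ Finset.range A.card,
              Complex.exp (2 * (Real.pi : ℂ) * Complex.I * (((a + d * (k : ℤ) : ℤ)) : ℂ) * (θ : ℂ))‖)
        ≤ norm1 A) ∧
    (∀ x y z : ℤ, x < y → y < z →
      (z - y = y - x → norm1 {x, y, z} = 1 / 3 + 2 * Real.sqrt 3 / Real.pi) ∧
      (z - y ≠ y - x → 1.4389 ≤ norm1 {x, y, z})) ∧
    1 / 3 + 2 * Real.sqrt 3 / Real.pi < 1.4361 := by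
  have key : ∀ x y z : ℤ, x < y → y < z →
      (z - y = y - x → norm1 {x, y, z} = 1 / 3 + 2 * Real.sqrt 3 / Real.pi) ∧
      (z - y ≠ y - x → 1.4389 ≤ norm1 {x, y, z}) := by
    intro x y z h1 h2
    rw [norm1_three h1 h2]
    refine ⟨fun h => ?_, fun h => low (by omega) (by omega) (fun h' => h h'.symm)⟩
    rw [h, ap3 x (by omega : y - x ≠ 0), apval]
  refine ⟨fun A a d hA hd => ?_, key, apval_lt⟩
  have e0 : (a + d * ((0 : ℕ) : ℤ)) = a := by simp
  have e1 : (a + d * ((1 : ℕ) : ℤ)) = a + d := by simp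
  have e2 : (a + d * ((2 : ℕ) : ℤ)) = a + d + d := by push_cast; ring
  obtain h | h | h | h : A.card = 0 ∨ A.card = 1 ∨ A.card = 2 ∨ A.card = 3 := by omega
  · rw [Finset.card_eq_zero] at h
    rw [h]
    unfold norm1
    simp
  · obtain ⟨x, rfl⟩ := Finset.card_eq_one.1 h
    rw [h]
    unfold norm1
    simp only [Finset.sum_range_one, Finset.sum_singleton, e_norm]
    exact le_rfl
  · rw [h]
    obtain ⟨x, y, hxy, rfl⟩ := Finset.card_eq_two.1 h
    have l : ∀ θ : ℝ, ∑ k ∈ Finset.range 2,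
        Complex.exp (2 * (Real.pi : ℂ) * Complex.I * (((a + d * (k : ℤ) : ℤ)) : ℂ) * (θ : ℂ)) =
        Complex.exp (2 * (Real.pi : ℂ) * Complex.I * (a : ℂ) * (θ : ℂ)) +
        Complex.exp (2 * (Real.pi : ℂ) * Complex.I * ((a + d : ℤ) : ℂ) * (θ : ℂ)) := by
      intro θ
      rw [Finset.sum_range_succ, Finset.sum_range_one, e0, e1]
    have r : ∀ θ : ℝ, ∑ k ∈ ({x, y} : Finset ℤ),
        Complex.exp (2 * (Real.pi : ℂ) * Complex.I * (k : ℂ) * (θ : ℂ)) =
        Complex.exp (2 * (Real.pi : ℂ) * Complex.I * (x : ℂ) * (θ : ℂ)) +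
        Complex.exp (2 * (Real.pi : ℂ) * Complex.I * ((x + (y - x) : ℤ) : ℂ) * (θ : ℂ)) := by
      intro θ
      rw [Finset.sum_pair hxy, show x + (y - x) = y by ring]
    unfold norm1
    simp_rw [l, r]
    rw [two a hd, two x (sub_ne_zero.2 hxy.symm)]
  · rw [h]
    obtain ⟨x, y, z, h1, h2, rfl⟩ := sorted h
    have l : ∀ θ : ℝ, ∑ k ∈ Finset.range 3,
        Complex.exp (2 * (Real.pi : ℂ) * Complex.I * (((a + d * (k : ℤ) : ℤ)) : ℂ) * (θ : ℂ)) =
        f3 a d d θ := by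
      intro θ
      unfold f3
      rw [Finset.sum_range_succ, Finset.sum_range_succ, Finset.sum_range_one, e0, e1, e2]
    simp_rw [l]
    rw [ap3 a hd, apval]
    rcases eq_or_ne (z - y) (y - x) with h3 | h3
    · exact ((key x y z h1 h2).1 h3).ge
    · have h4 := (key x y z h1 h2).2 h3
      have h5 := apval_lt
      linarith

end Pool.Agent.Results.MP_d1728b_an.ThreeElementSets
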